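import Pool.Agent.W719.AX.Gen
import Pool.Agent.W588.HT.Box

/-!
Project AX, part AX-SI: a sum over integers is an integral up to an exponentially small error.
-/

set_option autoImplicit false

namespace Pool.Agent.W991.AX

open Filter Topology Metric Set MeasureTheory Pool.Agent.W709.VC Pool.Agent.W588.HT
open Pool.Agent.W719.AX
open scoped Real Interval

/-- a value as a boundary integral, for functions differentiable at the points of the closed
rectangle -/
theorem box' {f : ℂ → ℂ} (n : ℤ) {H : ℝ} (hH : 0 < H)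
    (hK : ∀ x y : ℝ, (n : ℝ) - 1 / 2 ≤ x → x ≤ n + 1 - 1 / 2 → |y| ≤ H →
      DifferentiableAt ℂ f ((x : ℂ) + y * Complex.I)) :
    rect (fun w => f w * kk w) (n - 1 / 2) (n + 1 - 1 / 2) (-H) H = f n := by
  have hEn : EE n = 0 := by unfold EE; rw [ee_int]; ring
  -- the closed rectangle
  set V : Set ℂ := [[(n : ℝ) - 1 / 2, n + 1 - 1 / 2]] ×ℂ [[-H, H]] with hV
  have hVm : ∀ w ∈ V, DifferentiableAt ℂ f w := by
    intro w hw
    rw [hV, Complex.mem_reProdIm, uIcc_of_le (by linarith), uIcc_of_le (by linarith)] at hw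
    have := hK w.re w.im hw.1.1 hw.1.2 (abs_le.2 ⟨hw.2.1, hw.2.2⟩)
    rwa [Complex.re_add_im] at this
  have hnV : V ∈ 𝓝 (n : ℂ) := by
    have h1 : (Set.Ioo ((n : ℝ) - 1 / 2) (n + 1 - 1 / 2)) ×ℂ (Set.Ioo (-H) H) ∈ 𝓝 (n : ℂ) := by
      refine (isOpen_Ioo.reProdIm isOpen_Ioo).mem_nhds ?_
      rw [Complex.mem_reProdIm]
      simp only [Complex.intCast_re, Complex.intCast_im, Set.mem_Ioo]
      refine ⟨⟨by linarith, by linarith⟩, ⟨by linarith, hH⟩⟩
    refine mem_of_superset h1 ?_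
    intro w hw
    rw [Complex.mem_reProdIm] at hw
    rw [hV, Complex.mem_reProdIm, uIcc_of_le (by linarith), uIcc_of_le (by linarith)]
    exact ⟨Ioo_subset_Icc_self hw.1, Ioo_subset_Icc_self hw.2⟩
  have hdE : Differentiable ℂ (dslope EE (n : ℂ)) := by
    rw [← differentiableOn_univ]
    exact (Complex.differentiableOn_dslope univ_mem).2 EE_diff.differentiableOn
  have hE0 : ∀ w ∈ V, dslope EE (n : ℂ) w ≠ 0 := by
    intro w hwV
    by_cases hw : w = n
    · rw [hw, dslope_same, (EE_deriv _).deriv, ee_int, mul_one]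
      exact tpi
    · rw [dslope_of_ne _ hw, slope_def_field, hEn, sub_zero]
      apply div_ne_zero _ (sub_ne_zero.2 hw)
      intro h0
      obtain ⟨m, hm⟩ := EE_zero h0
      have h1 := congrArg Complex.re hm
      have h2 := congrArg Complex.im hm
      rw [hV, Complex.mem_reProdIm, uIcc_of_le (by linarith), uIcc_of_le (by linarith)] at hwV
      simp only [Complex.intCast_re, Complex.intCast_im] at h1 h2
      have hx1 := hwV.1.1
      have hx2 := hwV.1.2
      have h3 : (m : ℝ) < n + 1 := by linarith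
      have h4 : (n : ℝ) < m + 1 := by linarith
      have h5 : m = n := by
        have : m < n + 1 := by exact_mod_cast h3
        have : n < m + 1 := by exact_mod_cast h4
        omega
      apply hw
      rw [hm, h5]
  set g : ℂ → ℂ := fun w => dslope f (n : ℂ) w / dslope EE (n : ℂ) w with hg
  have hfV : DifferentiableOn ℂ f V := fun w hw => (hVm w hw).differentiableWithinAt
  have hgd : DifferentiableOn ℂ g V := by
    apply DifferentiableOn.div
    · exact (Complex.differentiableOn_dslope hnV).2 hfV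
    · exact hdE.differentiableOn
    · exact hE0
  have hBd : ∀ w ∈ Bd ((n : ℝ) - 1 / 2) (n + 1 - 1 / 2) (-H) H, w ∈ V ∧ w ≠ n ∧ EE w ≠ 0 := by
    intro w hw
    have hE : EE w ≠ 0 := by
      apply EE_Bd (m := n) (n := n + 1) hH
      push_cast
      exact hw
    refine ⟨?_, fun h => hE (h ▸ hEn), hE⟩
    rw [hV, Complex.mem_reProdIm]
    rcases hw with ⟨x, hx, rfl⟩ | ⟨x, hx, rfl⟩ | ⟨y, hy, rfl⟩ | ⟨y, hy, rfl⟩
    · refine ⟨by simpa using hx, ?_⟩
      simp
    · refine ⟨by simpa using hx, ?_⟩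
      simp
    · refine ⟨?_, by simpa using hy⟩
      have : (((n + 1 - 1 / 2 : ℝ) : ℂ) + y * Complex.I).re = n + 1 - 1 / 2 := by simp
      rw [this]
      exact right_mem_uIcc
    · refine ⟨?_, by simpa using hy⟩
      have : (((n - 1 / 2 : ℝ) : ℂ) + y * Complex.I).re = n - 1 / 2 := by simp
      rw [this]
      exact left_mem_uIcc
  have h1 : rect (fun w => f w * kk w) (n - 1 / 2) (n + 1 - 1 / 2) (-H) H =
      rect (fun w => g w + f n * kk w) (n - 1 / 2) (n + 1 - 1 / 2) (-H) H := by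
    apply rect_congr
    intro w hw
    obtain ⟨-, h2, h3⟩ := hBd w hw
    simp only [hg]
    rw [dslope_of_ne _ h2, dslope_of_ne _ h2, slope_def_field, slope_def_field, hEn, sub_zero]
    unfold kk
    have h4 : w - n ≠ 0 := sub_ne_zero.2 h2
    field_simp
    ring
  have hRg : RI g (n - 1 / 2) (n + 1 - 1 / 2) (-H) H := by
    apply RI_of_cont
    intro w hw
    obtain ⟨hwV, hwn, -⟩ := hBd w hw
    exact ((continuousAt_dslope_of_ne hwn).2 (hVm w hwV).continuousAt).div
      hdE.continuous.continuousAt (hE0 w hwV)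
  have hRk : RI (fun w => f n * kk w) (n - 1 / 2) (n + 1 - 1 / 2) (-H) H := by
    apply RI_of_cont
    intro w hw
    exact continuousAt_const.mul (kk_cont (hBd w hw).2.2)
  rw [h1, rect_add hRg hRk, rect_mul, rect_kk n hH, mul_one]
  have h2 : rect g (n - 1 / 2) (n + 1 - 1 / 2) (-H) H = 0 := by
    have h3 := Complex.integral_boundary_rect_eq_zero_of_differentiableOn g
      ⟨n - 1 / 2, -H⟩ ⟨n + 1 - 1 / 2, H⟩ hgd
    simpa [rect] using h3
  rw [h2, zero_add]

/-- a sum over integers as a boundary integral -/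
theorem sum_rect' {f : ℂ → ℂ} {A B : ℕ} (hAB : A ≤ B) {H : ℝ} (hH : 0 < H)
    (hK : ∀ x y : ℝ, (A : ℝ) - 1 / 2 ≤ x → x ≤ B - 1 / 2 → |y| ≤ H →
      DifferentiableAt ℂ f ((x : ℂ) + y * Complex.I)) :
    ∑ d ∈ Finset.Ico A B, f d = rect (fun w => f w * kk w) (A - 1 / 2) (B - 1 / 2) (-H) H := by
  induction B, hAB using Nat.le_induction with
  | base => simp [rect]
  | succ B hAB ih =>
    have hA : (A : ℝ) ≤ B := by exact_mod_cast hAB
    rw [Finset.sum_Ico_succ_top hAB, ih (fun x y h1 h2 h3 => hK x y h1 (by push_cast; linarith) h3)]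
    have hb := box' (f := f) (B : ℤ) hH (fun x y h1 h2 h3 => hK x y (by push_cast at h1; linarith)
      (by push_cast at h2 ⊢; linarith) h3)
    push_cast at hb ⊢
    rw [← hb]
    have key : ∀ (c u v : ℝ), c ≠ 0 → |c| ≤ H → (A : ℝ) - 1 / 2 ≤ u → u ≤ v → v ≤ B + 1 - 1 / 2 →
        IntervalIntegrable (fun x : ℝ => f (x + c * Complex.I) * kk (x + c * Complex.I)) volume u v := by
      intro c u v hc hcH hu huv hv
      apply ContinuousOn.intervalIntegrable
      rw [uIcc_of_le huv]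
      intro x hx
      have h1 : ContinuousAt f ((x : ℂ) + c * Complex.I) := (hK x c (hu.trans hx.1)
        (by push_cast; exact hx.2.trans hv) hcH).continuousAt
      have h2 : ContinuousAt kk ((x : ℂ) + c * Complex.I) := kk_cont (EE_ne_of_im hc)
      have h3 : ContinuousAt (fun x : ℝ => (x : ℂ) + c * Complex.I) x := by fun_prop
      exact ((ContinuousAt.comp (g := f) (f := fun x : ℝ => (x : ℂ) + c * Complex.I) h1 h3).mul
        (ContinuousAt.comp (g := kk) (f := fun x : ℝ => (x : ℂ) + c * Complex.I) h2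
          h3)).continuousWithinAt
    have e1 : |(-H)| ≤ H := by rw [abs_neg, abs_of_pos hH]
    have e2 : |H| ≤ H := by rw [abs_of_pos hH]
    exact (rect_append (f := fun w => f w * kk w)
      (key (-H) _ _ (by linarith) e1 (by linarith) (by linarith) (by linarith))
      (key (-H) _ _ (by linarith) e1 (by linarith) (by linarith) (by linarith))
      (key H _ _ hH.ne' e2 (by linarith) (by linarith) (by linarith))
      (key H _ _ hH.ne' e2 (by linarith) (by linarith) (by linarith))).symm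

theorem exp_ge_two {H : ℝ} (hH : 1 ≤ H) : 2 ≤ Real.exp (2 * π * H) := by
  have h1 := Real.add_one_le_exp (2 * π * H)
  have h2 := Real.pi_gt_three
  nlinarith

/-- the kernel at the bottom side -/
theorem kk_bot {H : ℝ} (hH : 1 ≤ H) (x : ℝ) :
    ‖kk ((x : ℂ) + (-H : ℝ) * Complex.I)‖ ≤ 2 * Real.exp (-(2 * π * H)) := by
  unfold kk EE
  rw [norm_div, norm_one]
  have h1 : ‖ee ((x : ℂ) + (-H : ℝ) * Complex.I)‖ = Real.exp (2 * π * H) := by
    rw [ee_norm]; congr 1; ring
  have h2 := exp_ge_two hH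
  have h3 : Real.exp (2 * π * H) / 2 ≤ ‖ee ((x : ℂ) + (-H : ℝ) * Complex.I) - 1‖ := by
    have := norm_sub_norm_le (ee ((x : ℂ) + (-H : ℝ) * Complex.I)) 1
    rw [h1, norm_one] at this
    linarith
  have h4 : 0 < Real.exp (2 * π * H) := Real.exp_pos _
  rw [Real.exp_neg]
  calc 1 / ‖ee ((x : ℂ) + (-H : ℝ) * Complex.I) - 1‖ ≤ 1 / (Real.exp (2 * π * H) / 2) :=
        one_div_le_one_div_of_le (by positivity) h3
    _ = _ := by field_simp

/-- the kernel at the top side -/
theorem kk_top {H : ℝ} (hH : 1 ≤ H) (x : ℝ) :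
    ‖kk ((x : ℂ) + (H : ℝ) * Complex.I) + 1‖ ≤ 2 * Real.exp (-(2 * π * H)) := by
  have h1 : ‖ee ((x : ℂ) + (H : ℝ) * Complex.I)‖ = Real.exp (-(2 * π * H)) := ee_norm _ _
  have h2 := exp_ge_two hH
  have h0 : Real.exp (-(2 * π * H)) ≤ 1 / 2 := by
    rw [Real.exp_neg, inv_eq_one_div]
    exact one_div_le_one_div_of_le (by norm_num) h2
  have hne : EE ((x : ℂ) + (H : ℝ) * Complex.I) ≠ 0 := EE_ne_of_im (by linarith)
  have e : kk ((x : ℂ) + (H : ℝ) * Complex.I) + 1
      = ee ((x : ℂ) + (H : ℝ) * Complex.I) / EE ((x : ℂ) + (H : ℝ) * Complex.I) := by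
    unfold kk
    rw [eq_div_iff hne, add_mul, one_mul, div_mul_cancel₀ _ hne]
    unfold EE
    ring
  rw [e, norm_div, h1]
  have h3 : 1 / 2 ≤ ‖EE ((x : ℂ) + (H : ℝ) * Complex.I)‖ := by
    unfold EE
    have := norm_sub_norm_le 1 (ee ((x : ℂ) + (H : ℝ) * Complex.I))
    rw [h1, norm_one, norm_sub_rev] at this
    linarith
  rw [div_le_iff₀ (by linarith)]
  have h4 : 0 < Real.exp (-(2 * π * H)) := Real.exp_pos _
  nlinarith

/-- the kernel on the lower part of the vertical sides -/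
theorem kk_low (n : ℤ) {y : ℝ} (hy : y ≤ 0) :
    ‖kk (((n - 1 / 2 : ℝ) : ℂ) + y * Complex.I)‖ ≤ Real.exp y := by
  unfold kk
  rw [EE_half, norm_div, norm_one, norm_neg, Complex.norm_real, Real.norm_eq_abs]
  have h0 := Real.exp_pos (-(2 * π * y))
  rw [abs_of_pos (by positivity), div_le_iff₀ (by positivity)]
  have h1 : 1 ≤ Real.exp y * Real.exp (-(2 * π * y)) := by
    rw [← Real.exp_add]
    apply Real.one_le_exp
    have := Real.pi_gt_three
    nlinarith
  have h2 := Real.exp_pos y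
  nlinarith

/-- the kernel on the upper part of the vertical sides -/
theorem kk_up (n : ℤ) {y : ℝ} (hy : 0 ≤ y) :
    ‖kk (((n - 1 / 2 : ℝ) : ℂ) + y * Complex.I) + 1‖ ≤ Real.exp (-y) := by
  have h0 := Real.exp_pos (-(2 * π * y))
  have hne : ((Real.exp (-(2 * π * y)) + 1 : ℝ) : ℂ) ≠ 0 := by
    exact_mod_cast (by positivity : (0:ℝ) < Real.exp (-(2 * π * y)) + 1).ne'
  have e : kk (((n - 1 / 2 : ℝ) : ℂ) + y * Complex.I) + 1
      = ((Real.exp (-(2 * π * y)) / (Real.exp (-(2 * π * y)) + 1) : ℝ) : ℂ) := by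
    unfold kk
    rw [EE_half]
    rw [Complex.ofReal_div]
    field_simp
    push_cast
    ring
  rw [e, Complex.norm_real, Real.norm_eq_abs, abs_of_pos (by positivity),
    div_le_iff₀ (by positivity)]
  have h1 : Real.exp (-(2 * π * y)) ≤ Real.exp (-y) := by
    apply Real.exp_le_exp.2
    have := Real.pi_gt_three
    nlinarith
  have h2 := Real.exp_pos (-y)
  nlinarith

theorem vert_low {g : ℝ → ℂ} {M H : ℝ} (hM : 0 ≤ M) (hH : 0 ≤ H)
    (hg : ∀ y, -H ≤ y → y ≤ 0 → ‖g y‖ ≤ M * Real.exp y) : ‖∫ y in (-H)..0, g y‖ ≤ M := by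
  have h1 : ‖∫ y in (-H)..0, g y‖ ≤ ∫ y in (-H)..0, M * Real.exp y := by
    refine intervalIntegral.norm_integral_le_of_norm_le (by linarith) ?_ ?_
    · exact Eventually.of_forall fun y hy => hg y hy.1.le hy.2
    · exact (Continuous.intervalIntegrable (by fun_prop) _ _)
  refine h1.trans ?_
  rw [intervalIntegral.integral_const_mul, integral_exp, Real.exp_zero]
  have := Real.exp_pos (-H)
  nlinarith

theorem vert_up {g : ℝ → ℂ} {M H : ℝ} (hM : 0 ≤ M) (hH : 0 ≤ H)
    (hg : ∀ y, 0 ≤ y → y ≤ H → ‖g y‖ ≤ M * Real.exp (-y)) : ‖∫ y in (0 : ℝ)..H, g y‖ ≤ M := by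
  have h1 := vert_low (g := fun y => g (-y)) hM hH (fun y h1 h2 => by
    have := hg (-y) (by linarith) (by linarith)
    rwa [neg_neg] at this)
  have h2 := intervalIntegral.integral_comp_neg (a := -H) (b := 0) g
  rw [neg_zero, neg_neg] at h2
  rw [← h2]
  exact h1

theorem si : S_SI := by
  intro F N a b h M₁ M₂ hN hab hNh hF hM₁ hM₂
  have hN0 : (0 : ℝ) < N := by exact_mod_cast hN
  have hNc : (N : ℂ) ≠ 0 := by exact_mod_cast hN.ne'
  have hab' : (a : ℝ) ≤ b := by exact_mod_cast hab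
  set H : ℝ := N * h with hHdef
  have hH : 0 < H := by linarith
  have hh : 0 < h := by
    by_contra hcon
    push Not at hcon
    have : (N : ℝ) * h ≤ 0 := mul_nonpos_of_nonneg_of_nonpos hN0.le hcon
    linarith
  set α : ℝ := (a : ℝ) - 1 / 2 with hα
  set β : ℝ := (b : ℝ) - 1 / 2 with hβ
  have hαβ : α ≤ β := by rw [hα, hβ]; linarith
  have hdiv : α / N ≤ β / N := div_le_div_of_nonneg_right hαβ hN0.le
  set f : ℂ → ℂ := fun w => F (w / N) with hf
  have hpt : ∀ x y : ℝ, ((x : ℂ) + y * Complex.I) / N = ((x / N : ℝ) : ℂ) + ((y / N : ℝ) : ℂ) * Complex.I := by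
    intro x y
    push_cast
    ring
  have hfd : ∀ x y : ℝ, α ≤ x → x ≤ β → |y| ≤ H →
      DifferentiableAt ℂ f ((x : ℂ) + y * Complex.I) := by
    intro x y h1 h2 h3
    have h4 : DifferentiableAt ℂ F (((x : ℂ) + y * Complex.I) / N) := by
      rw [hpt]
      refine hF _ _ (div_le_div_of_nonneg_right h1 hN0.le) (div_le_div_of_nonneg_right h2 hN0.le) ?_
      rw [abs_div, abs_of_pos hN0, div_le_iff₀ hN0]
      rw [hHdef] at h3
      linarith
    have h5 : DifferentiableAt ℂ (fun w : ℂ => w / N) ((x : ℂ) + y * Complex.I) := by fun_prop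
    exact DifferentiableAt.comp (g := F) (f := fun w : ℂ => w / N) _ h4 h5
  have hfc : ∀ x y : ℝ, α ≤ x → x ≤ β → |y| ≤ H →
      ContinuousAt f ((x : ℂ) + y * Complex.I) := fun x y h1 h2 h3 =>
    (hfd x y h1 h2 h3).continuousAt
  -- bounds
  have hfM1 : ∀ y : ℝ, |y| ≤ H → ‖f ((α : ℂ) + y * Complex.I)‖ ≤ M₁ ∧
      ‖f ((β : ℂ) + y * Complex.I)‖ ≤ M₁ := by
    intro y hy
    have h1 := hM₁ (y / N) (by
      rw [abs_div, abs_of_pos hN0, div_le_iff₀ hN0]
      rw [hHdef] at hy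
      linarith)
    simp only [hf, hpt]
    exact h1
  have hfM2 : ∀ x : ℝ, α ≤ x → x ≤ β → ‖f ((x : ℂ) + (H : ℝ) * Complex.I)‖ ≤ M₂ ∧
      ‖f ((x : ℂ) + (-H : ℝ) * Complex.I)‖ ≤ M₂ := by
    intro x h1 h2
    have h3 := hM₂ (x / N) (div_le_div_of_nonneg_right h1 hN0.le)
      (div_le_div_of_nonneg_right h2 hN0.le)
    have e1 : H / N = h := by rw [hHdef]; field_simp
    have e2 : -H / N = -h := by rw [hHdef]; field_simp
    simp only [hf, hpt, e1, e2]
    refine ⟨h3.1, ?_⟩
    have := h3.2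
    rw [sub_eq_add_neg, ← neg_mul, ← Complex.ofReal_neg] at this
    exact this
  have hM1 : 0 ≤ M₁ := (norm_nonneg _).trans (hfM1 0 (by simpa using hH.le)).1
  have hM2 : 0 ≤ M₂ := (norm_nonneg _).trans (hfM2 α le_rfl hαβ).1
  -- the sum
  have hS : ∑ d ∈ Finset.Ico a b, F ((d : ℂ) / N)
      = rect (fun w => f w * kk w) α β (-H) H := sum_rect' (f := f) hab hH hfd
  -- the integral
  have hI : (N : ℂ) * ∫ x in (α / N)..(β / N), F x = ∫ x in α..β, f x := by
    have h1 := intervalIntegral.integral_comp_div (a := α) (b := β)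
      (fun x : ℝ => F x) hN0.ne'
    have h2 : (∫ x in α..β, f x) = ∫ x in α..β, (fun x : ℝ => F x) (x / N) := by
      refine intervalIntegral.integral_congr fun x _ => ?_
      simp only [hf]
      push_cast
      rfl
    rw [h2, h1]
    simp
  -- Cauchy in the upper half
  have hC : rect f α β 0 H = 0 := by
    have h3 := Complex.integral_boundary_rect_eq_zero_of_differentiableOn f
      ⟨α, 0⟩ ⟨β, H⟩ (by
        intro w hw
        rw [Complex.mem_reProdIm] at hw
        simp only at hw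
        rw [uIcc_of_le hαβ, uIcc_of_le hH.le] at hw
        have := hfd w.re w.im hw.1.1 hw.1.2 (abs_le.2 ⟨by linarith [hw.2.1], hw.2.2⟩)
        rw [Complex.re_add_im] at this
        exact this.differentiableWithinAt)
    simpa [rect] using h3
  rw [hS, hI]
  unfold rect at hC ⊢
  -- integrability
  have iH : ∀ (c : ℝ), |c| ≤ H → IntervalIntegrable (fun x : ℝ => f (x + c * Complex.I))
      volume α β := by
    intro c hc
    apply ContinuousOn.intervalIntegrable
    rw [uIcc_of_le hαβ]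
    intro x hx
    exact (ContinuousAt.comp (g := f) (f := fun x : ℝ => (x : ℂ) + c * Complex.I)
      (hfc x c hx.1 hx.2 hc) (by fun_prop)).continuousWithinAt
  have iHk : ∀ (c : ℝ), c ≠ 0 → |c| ≤ H → IntervalIntegrable
      (fun x : ℝ => f (x + c * Complex.I) * kk (x + c * Complex.I)) volume α β := by
    intro c hc0 hc
    apply ContinuousOn.intervalIntegrable
    rw [uIcc_of_le hαβ]
    intro x hx
    exact ((ContinuousAt.comp (g := f) (f := fun x : ℝ => (x : ℂ) + c * Complex.I)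
      (hfc x c hx.1 hx.2 hc) (by fun_prop)).mul
      (ContinuousAt.comp (g := kk) (f := fun x : ℝ => (x : ℂ) + c * Complex.I)
        (kk_cont (EE_ne_of_im hc0)) (by fun_prop))).continuousWithinAt
  have iV : ∀ (n : ℤ) (u v : ℝ), α ≤ (n : ℝ) - 1 / 2 → (n : ℝ) - 1 / 2 ≤ β → -H ≤ u → u ≤ v → v ≤ H →
      IntervalIntegrable (fun y : ℝ => f (((n - 1 / 2 : ℝ) : ℂ) + y * Complex.I)) volume u v := by
    intro n u v h1 h2 h3 h4 h5
    apply ContinuousOn.intervalIntegrable
    rw [uIcc_of_le h4]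
    intro y hy
    exact (ContinuousAt.comp (g := f) (f := fun y : ℝ => ((n - 1 / 2 : ℝ) : ℂ) + y * Complex.I)
      (hfc _ y h1 h2 (abs_le.2 ⟨by linarith [hy.1], by linarith [hy.2]⟩))
      (by fun_prop)).continuousWithinAt
  have iVk : ∀ (n : ℤ) (u v : ℝ), α ≤ (n : ℝ) - 1 / 2 → (n : ℝ) - 1 / 2 ≤ β → -H ≤ u → u ≤ v → v ≤ H →
      IntervalIntegrable (fun y : ℝ => f (((n - 1 / 2 : ℝ) : ℂ) + y * Complex.I)
        * kk (((n - 1 / 2 : ℝ) : ℂ) + y * Complex.I)) volume u v := by
    intro n u v h1 h2 h3 h4 h5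
    apply ContinuousOn.intervalIntegrable
    rw [uIcc_of_le h4]
    intro y hy
    exact ((ContinuousAt.comp (g := f) (f := fun y : ℝ => ((n - 1 / 2 : ℝ) : ℂ) + y * Complex.I)
      (hfc _ y h1 h2 (abs_le.2 ⟨by linarith [hy.1], by linarith [hy.2]⟩)) (by fun_prop)).mul
      (ContinuousAt.comp (g := kk) (f := fun y : ℝ => ((n - 1 / 2 : ℝ) : ℂ) + y * Complex.I)
        (kk_cont (EE_half_ne n y)) (by fun_prop))).continuousWithinAt
  -- vertical sides
  have side : ∀ n : ℤ, α ≤ (n : ℝ) - 1 / 2 → (n : ℝ) - 1 / 2 ≤ β →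
      (∀ y : ℝ, |y| ≤ H → ‖f (((n - 1 / 2 : ℝ) : ℂ) + y * Complex.I)‖ ≤ M₁) →
      ‖(∫ y in (-H)..H, f (((n - 1 / 2 : ℝ) : ℂ) + y * Complex.I)
        * kk (((n - 1 / 2 : ℝ) : ℂ) + y * Complex.I))
        + ∫ y in (0 : ℝ)..H, f (((n - 1 / 2 : ℝ) : ℂ) + y * Complex.I)‖ ≤ 2 * M₁ := by
    intro n h1 h2 hbd
    rw [← intervalIntegral.integral_add_adjacent_intervals
      (iVk n (-H) 0 h1 h2 le_rfl (by linarith) hH.le)
      (iVk n 0 H h1 h2 (by linarith) hH.le le_rfl), add_assoc,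
      ← intervalIntegral.integral_add (iVk n 0 H h1 h2 (by linarith) hH.le le_rfl)
      (iV n 0 H h1 h2 (by linarith) hH.le le_rfl)]
    refine (norm_add_le _ _).trans ?_
    have k1 := vert_low (g := fun y : ℝ => f (((n - 1 / 2 : ℝ) : ℂ) + y * Complex.I)
        * kk (((n - 1 / 2 : ℝ) : ℂ) + y * Complex.I)) hM1 hH.le (fun y hy1 hy2 => by
      rw [norm_mul]
      exact mul_le_mul (hbd y (abs_le.2 ⟨hy1, by linarith⟩)) (kk_low n hy2) (norm_nonneg _) hM1)
    have k2 := vert_up (g := fun y : ℝ => f (((n - 1 / 2 : ℝ) : ℂ) + y * Complex.I)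
        * kk (((n - 1 / 2 : ℝ) : ℂ) + y * Complex.I)
        + f (((n - 1 / 2 : ℝ) : ℂ) + y * Complex.I)) hM1 hH.le (fun y hy1 hy2 => by
      rw [← mul_add_one, norm_mul]
      exact mul_le_mul (hbd y (abs_le.2 ⟨by linarith, hy2⟩)) (kk_up n hy1) (norm_nonneg _) hM1)
    linarith
  have sA := side (a : ℤ) (by rw [hα]; push_cast; exact le_rfl) (by rw [hβ]; push_cast; linarith)
    (fun y hy => by
      have := (hfM1 y hy).1
      rw [hα] at this
      push_cast at this ⊢
      exact this)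
  have sB := side (b : ℤ) (by rw [hα]; push_cast; linarith) (by rw [hβ]; push_cast; exact le_rfl)
    (fun y hy => by
      have := (hfM1 y hy).2
      rw [hβ] at this
      push_cast at this ⊢
      exact this)
  have eA : (((a : ℤ) : ℝ) - 1 / 2 : ℝ) = α := by rw [hα]; push_cast; ring
  have eB : (((b : ℤ) : ℝ) - 1 / 2 : ℝ) = β := by rw [hβ]; push_cast; ring
  rw [eA] at sA
  rw [eB] at sB
  -- horizontal sides
  have hbot : ‖∫ x in α..β, f (x + (-H : ℝ) * Complex.I) * kk (x + (-H : ℝ) * Complex.I)‖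
      ≤ M₂ * (2 * Real.exp (-(2 * π * H))) * |β - α| := by
    apply intervalIntegral.norm_integral_le_of_norm_le_const
    intro x hx
    rw [uIoc_of_le hαβ] at hx
    rw [norm_mul]
    exact mul_le_mul (hfM2 x hx.1.le hx.2).2 (kk_bot hNh x) (norm_nonneg _) hM2
  have htop : ‖∫ x in α..β, (f (x + (H : ℝ) * Complex.I) * kk (x + (H : ℝ) * Complex.I)
      + f (x + (H : ℝ) * Complex.I))‖ ≤ M₂ * (2 * Real.exp (-(2 * π * H))) * |β - α| := by
    apply intervalIntegral.norm_integral_le_of_norm_le_const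
    intro x hx
    rw [uIoc_of_le hαβ] at hx
    rw [← mul_add_one, norm_mul]
    exact mul_le_mul (hfM2 x hx.1.le hx.2).1 (kk_top hNh x) (norm_nonneg _) hM2
  rw [intervalIntegral.integral_add (iHk H hH.ne' (abs_of_pos hH).le) (iH H (abs_of_pos hH).le)]
    at htop
  have hba : |β - α| = (b : ℝ) - a := by
    rw [abs_of_nonneg (by linarith), hα, hβ]; ring
  rw [hba] at hbot htop
  have hexp : (2 * π * N * h) = 2 * π * H := by rw [hHdef]; ring
  rw [hexp]
  set I1 := ∫ x in α..β, f (x + (-H : ℝ) * Complex.I) * kk (x + (-H : ℝ) * Complex.I) with hI1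
  set I2 := ∫ x in α..β, f (x + (H : ℝ) * Complex.I) * kk (x + (H : ℝ) * Complex.I) with hI2
  set I3 := ∫ x in α..β, f (x + (H : ℝ) * Complex.I) with hI3
  set J1 := ∫ y in (-H)..H, f (β + y * Complex.I) * kk (β + y * Complex.I) with hJ1
  set J2 := ∫ y in (-H)..H, f (α + y * Complex.I) * kk (α + y * Complex.I) with hJ2
  set J3 := ∫ y in (0 : ℝ)..H, f (β + y * Complex.I) with hJ3
  set J4 := ∫ y in (0 : ℝ)..H, f (α + y * Complex.I) with hJ4
  have e0 : (∫ x in α..β, f (x + (0 : ℝ) * Complex.I)) = ∫ x in α..β, f x := by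
    refine intervalIntegral.integral_congr fun x _ => ?_
    simp
  rw [e0] at hC
  set I0 := ∫ x in α..β, f x with hI0
  have efin : I1 - I2 + Complex.I * J1 - Complex.I * J2 - I0
      = I1 - (I2 + I3) + Complex.I * (J1 + J3) - Complex.I * (J2 + J4) := by
    linear_combination -hC
  rw [efin]
  have n1 : ‖Complex.I * (J1 + J3)‖ ≤ 2 * M₁ := by
    rw [norm_mul, Complex.norm_I, one_mul]; exact sB
  have n2 : ‖Complex.I * (J2 + J4)‖ ≤ 2 * M₁ := by
    rw [norm_mul, Complex.norm_I, one_mul]; exact sA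
  have n3 := norm_sub_le (I1 - (I2 + I3) + Complex.I * (J1 + J3)) (Complex.I * (J2 + J4))
  have n4 := norm_add_le (I1 - (I2 + I3)) (Complex.I * (J1 + J3))
  have n5 := norm_sub_le I1 (I2 + I3)
  linarith

end Pool.Agent.W991.AX
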